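import Pool.Agent.Lib.MP_3240be_co.H51.Defs

/-!
# Row N2A: the rook graph is not Ramsey for a connected graph with `n + 1` vertices
-/

set_option autoImplicit false

namespace MP3240T

/-- A function that does not change along the edges of a connected graph is constant. -/
theorem const_of_conn {X Y : Type} (T : SimpleGraph X) (hc : T.Connected) (g : X → Y)
    (h : ∀ i j, T.Adj i j → g i = g j) (i j : X) : g i = g j := by
  obtain ⟨w⟩ := hc.preconnected i j
  induction w with
  | nil => rfl
  | cons hadj _ ih => exact (h _ _ hadj).trans ih

theorem n2a_proof : N2AStatement := by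
  intro n T' hc h
  obtain ⟨b, f, hf, hadj⟩ := h (fun u v => decide (u.1 = v.1)) (by
    intro x y
    by_cases hxy : x.1 = y.1
    · simp [hxy]
    · have hyx : ¬ y.1 = x.1 := fun h => hxy h.symm
      simp [hxy, hyx])
  cases b
  · have key : ∀ i j, T'.Adj i j → (f i).2 = (f j).2 := by
      intro i j hij
      obtain ⟨h1, h2, -⟩ := hadj i j hij
      have h2' : ¬ (f i).1 = (f j).1 := by simpa using h2
      rw [rook, SimpleGraph.fromRel_adj] at h1
      obtain ⟨-, h3 | h3⟩ := h1
      · exact h3.resolve_left h2'
      · exact (h3.resolve_left (fun h => h2' h.symm)).symm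
    have inj : Function.Injective (fun i => (f i).1) := fun i j hij =>
      hf (Prod.ext hij (const_of_conn T' hc (fun i => (f i).2) key i j))
    have := Fintype.card_le_of_injective _ inj
    simp at this
  · have key : ∀ i j, T'.Adj i j → (f i).1 = (f j).1 := by
      intro i j hij
      obtain ⟨-, h2, -⟩ := hadj i j hij
      simpa using h2
    have inj : Function.Injective (fun i => (f i).2) := fun i j hij =>
      hf (Prod.ext (const_of_conn T' hc (fun i => (f i).1) key i j) hij)
    have := Fintype.card_le_of_injective _ inj
    simp at this

end MP3240T
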