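import Pool.Agent.Lib.MP_3240be_co.H51.Defs

/-!
# Row PEN: pendant extension of a tree of depth two at a child of the centre
-/

set_option autoImplicit false

namespace MP3240T

/-- The leaf numbers of the extended tree. -/
def cup {a : ℕ} (c : Fin a → ℕ) (i0 : Fin a) : Fin a → ℕ := fun i => if i = i0 then c i + 1 else c i

theorem lt_cup {a : ℕ} (c : Fin a → ℕ) (i0 i : Fin a) (j : Fin (c i)) : j.val < cup c i0 i := by
  have := j.isLt
  unfold cup
  split_ifs <;> omega

theorem lt_cup0 {a : ℕ} (c : Fin a → ℕ) (i0 : Fin a) : c i0 < cup c i0 i0 := by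
  simp [cup]

/-- The vertices of the extended tree. -/
def gup {a : ℕ} (c : Fin a → ℕ) (i0 : Fin a) : Option (D2 c) → D2 (cup c i0)
  | none => .lf i0 ⟨c i0, lt_cup0 c i0⟩
  | some .ctr => .ctr
  | some (.al i) => .al i
  | some (.lf i j) => .lf i ⟨j.val, lt_cup c i0 i j⟩

theorem lf_inj {a : ℕ} {c : Fin a → ℕ} {i i' : Fin a} {j j' : ℕ} {h : j < c i} {h' : j' < c i'}
    (e : (D2.lf i ⟨j, h⟩ : D2 c) = .lf i' ⟨j', h'⟩) : i = i' ∧ j = j' := by
  injection e with e1 e2
  subst e1
  refine ⟨rfl, ?_⟩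
  have := eq_of_heq e2
  exact congrArg Fin.val this

theorem gup_inj {a : ℕ} (c : Fin a → ℕ) (i0 : Fin a) : Function.Injective (gup c i0) := by
  intro x y h
  rcases x with _ | _ | i | ⟨i, j⟩ <;> rcases y with _ | _ | i' | ⟨i', j'⟩ <;>
    simp only [gup] at h <;> first | rfl | (injection h; done) | skip
  · obtain ⟨h1, h2⟩ := lf_inj h
    subst h1
    exact absurd h2 (by have := j'.isLt; omega)
  · injection h with h1
    rw [h1]
  · obtain ⟨h1, h2⟩ := lf_inj h
    subst h1
    exact absurd h2 (by have := j.isLt; omega)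
  · obtain ⟨h1, h2⟩ := lf_inj h
    subst h1
    rw [Fin.ext h2]

theorem gup_surj {a : ℕ} (c : Fin a → ℕ) (i0 : Fin a) : Function.Surjective (gup c i0) := by
  intro y
  rcases y with _ | i | ⟨i, j⟩
  · exact ⟨some .ctr, rfl⟩
  · exact ⟨some (.al i), rfl⟩
  · by_cases hj : j.val < c i
    · exact ⟨some (.lf i ⟨j.val, hj⟩), rfl⟩
    · have hlt := j.isLt
      have hi : i = i0 := by
        by_contra hne
        simp only [cup, hne, if_false] at hlt
        exact hj hlt
      subst hi
      refine ⟨none, ?_⟩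
      have : j.val = c i := by
        simp only [cup, if_true] at hlt
        omega
      simp only [gup]
      congr 1
      exact Fin.ext this.symm

theorem gup_adj {a : ℕ} (c : Fin a → ℕ) (i0 : Fin a) (x y : D2 c) :
    (T2 c).Adj x y ↔ (T2 (cup c i0)).Adj (gup c i0 (some x)) (gup c i0 (some y)) := by
  have hne : gup c i0 (some x) ≠ gup c i0 (some y) ↔ x ≠ y := by
    rw [Ne, (gup_inj c i0).eq_iff, Option.some_inj]
  rw [T2, T2, SimpleGraph.fromRel_adj, SimpleGraph.fromRel_adj, hne]
  rcases x with _ | i | ⟨i, j⟩ <;> rcases y with _ | i' | ⟨i', j'⟩ <;> simp [gup]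

theorem gup_last {a : ℕ} (c : Fin a → ℕ) (i0 : Fin a) (y : D2 c) :
    (T2 (cup c i0)).Adj (gup c i0 none) (gup c i0 (some y)) ↔ y = .al i0 := by
  have hne : gup c i0 none ≠ gup c i0 (some y) := fun h => by
    have := gup_inj c i0 h
    simp at this
  rw [T2, SimpleGraph.fromRel_adj]
  rcases y with _ | i' | ⟨i', j'⟩
  · simp [gup]
  · simp [gup]
  · simp [gup]

theorem pen_proof : PenStatement := by
  intro n a T T' v c e i0 h1 h2 h3 h4
  let e' : Fin (n + 1) ≃ D2 (cup c i0) :=
    (finSuccEquivLast.trans (Equiv.optionCongr e)).trans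
      (Equiv.ofBijective (gup c i0) ⟨gup_inj c i0, gup_surj c i0⟩)
  have e1 : ∀ i : Fin n, e' i.castSucc = gup c i0 (some (e i)) := by
    intro i
    simp [e']
  have e2 : e' (Fin.last n) = gup c i0 none := by
    simp [e']
  have h5 : ∀ i : Fin n, T'.Adj (Fin.last n) i.castSucc ↔
      (T2 (cup c i0)).Adj (e' (Fin.last n)) (e' i.castSucc) := by
    intro i
    rw [e1, e2, gup_last, h2, ← h4, e.injective.eq_iff]
  refine ⟨e', ?_⟩
  intro i j
  change T'.Adj i j ↔ (T2 (cup c i0)).Adj (e' i) (e' j)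
  induction i using Fin.lastCases with
  | last =>
    induction j using Fin.lastCases with
    | last => simp
    | cast j => exact h5 j
  | cast i =>
    induction j using Fin.lastCases with
    | last => rw [T'.adj_comm, (T2 (cup c i0)).adj_comm]; exact h5 i
    | cast j => rw [e1, e1, ← gup_adj, ← h3, h1]

end MP3240T
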